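import Pool.Agent.Helper33.HM.Tools

/-!
# HM-A3: the functions `f_h`

Along the generic branch of a tree of partitions `a` we take maxima of the functions named by
`F r j`, where `r` is the part of the function which is already fixed.
-/

set_option autoImplicit false
set_option linter.unusedSectionVars false

namespace Pool.Agent.Helper33.HM

universe u

section A3

variable {B : Type u} [CompleteBooleanAlgebra B] {S T : Set B}

/-- The value of: the first values of `f` are bounded by `r`. -/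
def a3Le (f : ℕ → ℕ → B) (r : List ℕ) : B := ⨅ i : ℕ, ⨅ h : i < r.length, f i r[i]

/-- The value of: the first values of `f` are given by `r`. -/
def a3Eq (f : ℕ → ℕ → B) (r : List ℕ) : B := ⨅ i : ℕ, ⨅ h : i < r.length, eqN (f i) r[i]

/-- The value of: `F (f|n) (h (b|(n+1))) i ≤ k` (or the branch is not defined). -/
def a3G (a : List ℕ → B) (F : List ℕ → ℕ → ℕ → ℕ → B) (h : ℕ → ℕ → B) (n : ℕ)
    (f : ℕ → ℕ → B) (i k : ℕ) : B :=
  (a [])ᶜ ⊔ ⨆ τ : List ℕ, ⨆ _ : τ.length = n + 1, ⨆ r : List ℕ, ⨆ _ : r.length = n, ⨆ j : ℕ,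
    a τ ⊓ a3Le f r ⊓ h (Encodable.encode τ) j ⊓ F r j i k

/-- The sequence of names `f^n`. -/
def a3f (a : List ℕ → B) (F : List ℕ → ℕ → ℕ → ℕ → B) (h : ℕ → ℕ → B) : ℕ → ℕ → ℕ → B
  | 0 => fun _ _ => ⊤
  | n + 1 => fun i k => a3f a F h n i k ⊓ a3G a F h n (a3f a F h n) i k

/-- The limit. -/
def a3Phi (a : List ℕ → B) (F : List ℕ → ℕ → ℕ → ℕ → B) (h : ℕ → ℕ → B) (i k : ℕ) : B :=
  a3f a F h (i + 1) i k

theorem a3_le_le (f : ℕ → ℕ → B) (r : List ℕ) (i : ℕ) (h : i < r.length) :
    a3Le f r ≤ f i r[i] := (iInf_le _ i).trans (iInf_le _ h)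

theorem a3_eq_le (f : ℕ → ℕ → B) (r : List ℕ) (i : ℕ) (h : i < r.length) :
    a3Eq f r ≤ eqN (f i) r[i] := (iInf_le _ i).trans (iInf_le _ h)

theorem a3_eqN_compl (g : ℕ → B) {j m : ℕ} (h : j < m) : eqN g m ≤ (g j)ᶜ :=
  inf_le_right.trans ((iInf_le _ j).trans (iInf_le _ h))

theorem a3_mono_le {g : ℕ → B} (hg : ∀ k, g k ≤ g (k + 1)) {k l : ℕ} (h : k ≤ l) : g k ≤ g l :=
  monotone_nat_of_le_succ hg h

/-- every nonzero element meets some exact value -/
theorem a3_exists_eqN {g : ℕ → B} (hmono : ∀ k, g k ≤ g (k + 1)) (htot : ⨆ k, g k = ⊤)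
    {c : B} (hc : c ≠ ⊥) : ∃ m, c ⊓ eqN g m ≠ ⊥ := by
  classical
  have h1 : ∃ m, c ⊓ g m ≠ ⊥ := exists_inf_ne_bot hc (htot ▸ le_top)
  refine ⟨Nat.find h1, ?_⟩
  have h2 := Nat.find_spec h1
  have h3 : c ⊓ g (Nat.find h1) ≤ c ⊓ eqN g (Nat.find h1) := by
    refine le_inf inf_le_left (le_inf inf_le_right ?_)
    refine le_iInf fun j => le_iInf fun hj => ?_
    have h4 : ¬ (c ⊓ g j ≠ ⊥) := Nat.find_min h1 hj
    rw [not_not] at h4
    exact inf_le_left.trans (le_compl_iff_disjoint_right.2 (disjoint_iff.2 h4))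
  intro h4
  exact h2 (le_bot_iff.1 (h3.trans h4.le))

theorem a3_exists_eq {f : ℕ → ℕ → B} (hf : IsFn T f) {c : B} (hc : c ≠ ⊥) (n : ℕ) :
    ∃ r : List ℕ, r.length = n ∧ c ⊓ a3Eq f r ≠ ⊥ := by
  induction n with
  | zero =>
    refine ⟨[], rfl, ?_⟩
    have : a3Eq f [] = ⊤ := by simp [a3Eq]
    rw [this, inf_top_eq]
    exact hc
  | succ n ih =>
    obtain ⟨r, hr, hcr⟩ := ih
    obtain ⟨m, hm⟩ := a3_exists_eqN (hf.mono n) (hf.tot n) hcr
    refine ⟨r ++ [m], by simp [hr], ?_⟩
    have h : c ⊓ a3Eq f r ⊓ eqN (f n) m ≤ c ⊓ a3Eq f (r ++ [m]) := by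
      refine le_inf (inf_le_left.trans inf_le_left) ?_
      refine le_iInf fun i => le_iInf fun hi => ?_
      by_cases hin : i < r.length
      · rw [List.getElem_append_left hin]
        exact inf_le_left.trans (inf_le_right.trans (a3_eq_le f r i hin))
      · have hi' : i = n := by
          rw [List.length_append, List.length_singleton] at hi
          omega
        subst hi'
        have : (r ++ [m])[i] = m := by
          rw [List.getElem_append_right (by omega)]
          simp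
        rw [this]
        exact inf_le_right
    intro h'
    exact hm (le_bot_iff.1 (h' ▸ h))

theorem a3_eq_le_le (f : ℕ → ℕ → B) (r : List ℕ) : a3Eq f r ≤ a3Le f r :=
  iInf_mono fun _ => iInf_mono fun _ => inf_le_left

/-- if `r'` is not above `r`, the values are disjoint -/
theorem a3_eq_inf_le {f : ℕ → ℕ → B} {r r' : List ℕ} {i : ℕ} (h : i < r.length)
    (h' : i < r'.length) (hlt : r'[i] < r[i]) : a3Eq f r ⊓ a3Le f r' = ⊥ := by
  have h1 := (a3_eq_le f r i h).trans (a3_eqN_compl (f i) hlt)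
  have h2 := a3_le_le f r' i h'
  exact le_bot_iff.1 ((inf_le_inf h1 h2).trans (compl_inf_eq_bot).le)

section Tree

variable {a : List ℕ → B} (hdisj : ∀ τ m n, m ≠ n → a (m :: τ) ⊓ a (n :: τ) = ⊥)
  (hsup : ∀ τ, ⨆ m, a (m :: τ) = a τ)

include hsup in
theorem a3_a_le (τ : List ℕ) : a τ ≤ a [] := by
  induction τ with
  | nil => exact le_rfl
  | cons m τ ih => exact ((le_iSup (fun m => a (m :: τ)) m).trans (hsup τ).le).trans ih

include hsup hdisj in
theorem a3_a_disj : ∀ τ τ' : List ℕ, τ.length = τ'.length → τ ≠ τ' → a τ ⊓ a τ' = ⊥ := by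
  intro τ
  induction τ with
  | nil =>
    intro τ' h hne
    exact absurd (List.length_eq_zero_iff.1 h.symm).symm hne
  | cons m τ ih =>
    intro τ' h hne
    cases τ' with
    | nil => simp at h
    | cons m' τ' =>
      have hl : τ.length = τ'.length := by simpa using h
      by_cases hτ : τ = τ'
      · subst hτ
        exact hdisj τ m m' fun e => hne (by rw [e])
      · have h1 : a (m :: τ) ≤ a τ := (le_iSup (fun m => a (m :: τ)) m).trans (hsup τ).le
        have h2 : a (m' :: τ') ≤ a τ' := (le_iSup (fun m => a (m :: τ')) m').trans (hsup τ').le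
        exact le_bot_iff.1 ((inf_le_inf h1 h2).trans (ih τ' hl hτ).le)

include hsup in
theorem a3_exists_tau {c : B} (hc : c ≠ ⊥) (hca : c ≤ a []) (n : ℕ) :
    ∃ τ : List ℕ, τ.length = n ∧ c ⊓ a τ ≠ ⊥ := by
  induction n with
  | zero =>
    refine ⟨[], rfl, ?_⟩
    rw [inf_eq_left.2 hca]
    exact hc
  | succ n ih =>
    obtain ⟨τ, hτ, h⟩ := ih
    have h2 : c ⊓ a τ ≤ ⨆ m, a (m :: τ) := by
      rw [hsup τ]
      exact inf_le_right
    obtain ⟨m, hm⟩ := exists_inf_ne_bot h h2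
    refine ⟨m :: τ, by simp [hτ], ?_⟩
    intro h3
    apply hm
    have : c ⊓ a τ ⊓ a (m :: τ) ≤ c ⊓ a (m :: τ) := inf_le_inf_right _ inf_le_left
    exact le_bot_iff.1 (h3 ▸ this)

end Tree

theorem a3_le_mem (hT : IsSub T) {f : ℕ → ℕ → B} (hf : ∀ n k, f n k ∈ T) (r : List ℕ) :
    a3Le f r ∈ T := hT.iInf_mem fun _ => hT.iInf_mem fun _ => hf _ _

/-- the general term is below `a3G` -/
theorem a3_term_le (a : List ℕ → B) (F : List ℕ → ℕ → ℕ → ℕ → B) (h : ℕ → ℕ → B) {n : ℕ}
    (f : ℕ → ℕ → B) (i k : ℕ) {τ r : List ℕ} (hτ : τ.length = n + 1) (hr : r.length = n)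
    (j : ℕ) :
    a τ ⊓ a3Le f r ⊓ h (Encodable.encode τ) j ⊓ F r j i k ≤ a3G a F h n f i k := by
  refine le_trans ?_ le_sup_right
  refine le_trans ?_ (le_iSup _ τ)
  refine le_trans ?_ (le_iSup _ hτ)
  refine le_trans ?_ (le_iSup _ r)
  refine le_trans ?_ (le_iSup _ hr)
  exact le_iSup (fun j => a τ ⊓ a3Le f r ⊓ h (Encodable.encode τ) j ⊓ F r j i k) j

/-- to bound `c ⊓ a3G` it suffices to bound the terms -/
theorem a3_inf_G_le {a : List ℕ → B} {F : List ℕ → ℕ → ℕ → ℕ → B} {h : ℕ → ℕ → B} {n : ℕ}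
    {f : ℕ → ℕ → B} {i k : ℕ} {c x : B} (h0 : c ⊓ (a [])ᶜ ≤ x)
    (h1 : ∀ τ r : List ℕ, τ.length = n + 1 → r.length = n → ∀ j,
      c ⊓ (a τ ⊓ a3Le f r ⊓ h (Encodable.encode τ) j ⊓ F r j i k) ≤ x) :
    c ⊓ a3G a F h n f i k ≤ x := by
  rw [a3G, inf_sup_left]
  refine sup_le h0 ?_
  simp only [inf_iSup_eq]
  refine iSup_le fun τ => iSup_le fun hτ => iSup_le fun r => iSup_le fun hr => iSup_le fun j => ?_
  exact h1 τ r hτ hr j

theorem a3_G_fn (hT : IsSub T) {a : List ℕ → B}
    (ha : ∀ τ, a τ ∈ T) (hsup : ∀ τ, ⨆ m, a (m :: τ) = a τ) {F : List ℕ → ℕ → ℕ → ℕ → B}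
    (hF : ∀ r j, IsFn T (F r j)) {h : ℕ → ℕ → B} (hh : IsFn T h) (n : ℕ) {f : ℕ → ℕ → B}
    (hf : IsFn T f) : IsFn T (a3G a F h n f) := by
  refine ⟨fun i k => ?_, fun i k => ?_, fun i => ?_⟩
  · refine hT.sup_mem (hT.compl_mem _ (ha _)) ?_
    refine hT.iSup_mem fun τ => hT.iSup_mem fun _ => hT.iSup_mem fun r => hT.iSup_mem fun _ =>
      hT.iSup_mem fun j => ?_
    exact hT.inf_mem (hT.inf_mem (hT.inf_mem (ha _) (a3_le_mem hT hf.mem r)) (hh.mem _ _))
      ((hF r j).mem i k)
  · refine sup_le_sup_left ?_ _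
    refine iSup_mono fun τ => iSup_mono fun _ => iSup_mono fun r => iSup_mono fun _ =>
      iSup_mono fun j => ?_
    exact inf_le_inf_left _ ((hF r j).mono i k)
  · refine top_le_iff.1 (le_of_forall_meets fun c hc _ => ?_)
    by_cases hca : c ⊓ (a [])ᶜ = ⊥
    · have hca' : c ≤ a [] := by
        have := le_compl_iff_disjoint_right.2 (disjoint_iff.2 hca)
        rwa [compl_compl] at this
      obtain ⟨τ, hτ, h1⟩ := a3_exists_tau hsup hc hca' (n + 1)
      obtain ⟨r, hr, h2⟩ := a3_exists_eq hf h1 n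
      obtain ⟨j, h3⟩ := exists_inf_ne_bot h2
        (show c ⊓ a τ ⊓ a3Eq f r ≤ ⨆ j, h (Encodable.encode τ) j by
          rw [hh.tot]; exact le_top)
      obtain ⟨k, h4⟩ := exists_inf_ne_bot h3
        (show c ⊓ a τ ⊓ a3Eq f r ⊓ h (Encodable.encode τ) j ≤ ⨆ k, F r j i k by
          rw [(hF r j).tot]; exact le_top)
      intro h5
      apply h4
      refine le_bot_iff.1 ?_
      rw [← h5]
      refine le_inf ?_ ?_
      · exact inf_le_left.trans (inf_le_left.trans (inf_le_left.trans inf_le_left))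
      · refine le_trans ?_ (le_iSup (fun k => a3G a F h n f i k) k)
        refine le_trans ?_ (a3_term_le a F h f i k hτ hr j)
        refine inf_le_inf_right _ (inf_le_inf_right _ ?_)
        exact inf_le_inf inf_le_right (a3_eq_le_le f r)
    · intro h5
      apply hca
      refine le_bot_iff.1 ?_
      rw [← h5]
      refine inf_le_inf_left _ ?_
      exact le_trans le_sup_left (le_iSup (fun k => a3G a F h n f i k) 0)

theorem a3_inf_fn (hT : IsSub T) {f g : ℕ → ℕ → B} (hf : IsFn T f) (hg : IsFn T g) :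
    IsFn T (fun n k => f n k ⊓ g n k) := by
  refine ⟨fun n k => hT.inf_mem (hf.mem n k) (hg.mem n k),
    fun n k => inf_le_inf (hf.mono n k) (hg.mono n k), fun n => ?_⟩
  refine top_le_iff.1 (le_of_forall_meets fun c hc _ => ?_)
  obtain ⟨k, hk⟩ := exists_inf_ne_bot hc (show c ≤ ⨆ k, f n k by rw [hf.tot]; exact le_top)
  obtain ⟨l, hl⟩ := exists_inf_ne_bot hk
    (show c ⊓ f n k ≤ ⨆ k, g n k by rw [hg.tot]; exact le_top)
  intro h
  apply hl
  refine le_bot_iff.1 ?_
  rw [← h]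
  refine le_trans ?_ (inf_le_inf_left c (le_iSup (fun k => f n k ⊓ g n k) (max k l)))
  refine le_inf (inf_le_left.trans inf_le_left) (le_inf ?_ ?_)
  · exact inf_le_left.trans (inf_le_right.trans (a3_mono_le (hf.mono n) (le_max_left k l)))
  · exact inf_le_right.trans (a3_mono_le (hg.mono n) (le_max_right k l))

theorem a3_f_fn (hT : IsSub T) {a : List ℕ → B}
    (ha : ∀ τ, a τ ∈ T) (hsup : ∀ τ, ⨆ m, a (m :: τ) = a τ) {F : List ℕ → ℕ → ℕ → ℕ → B}
    (hF : ∀ r j, IsFn T (F r j)) {h : ℕ → ℕ → B} (hh : IsFn T h) (n : ℕ) :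
    IsFn T (a3f a F h n) := by
  induction n with
  | zero => exact ⟨fun _ _ => hT.top_mem, fun _ _ => le_rfl, fun _ => by simp [a3f]⟩
  | succ n ih => exact a3_inf_fn hT ih (a3_G_fn hT ha hsup hF hh n ih)

/-- `f^{n+1}` agrees with `f^n` at the arguments less than `n`. -/
theorem a3_stab (hT : IsSub T) {a : List ℕ → B}
    (ha : ∀ τ, a τ ∈ T) (hsup : ∀ τ, ⨆ m, a (m :: τ) = a τ) {F : List ℕ → ℕ → ℕ → ℕ → B}
    (hF : ∀ r j, IsFn T (F r j)) (hext : ∀ r j, ExtF r (F r j)) {h : ℕ → ℕ → B}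
    (hh : IsFn T h) {n i : ℕ} (hi : i < n) (k : ℕ) :
    a3f a F h (n + 1) i k = a3f a F h n i k := by
  have hf := a3_f_fn hT ha hsup hF hh n
  refine le_antisymm inf_le_left (le_inf le_rfl ?_)
  refine le_of_forall_meets fun c hc hcf => ?_
  by_cases hca : c ⊓ (a [])ᶜ = ⊥
  · have hca' : c ≤ a [] := by
      have := le_compl_iff_disjoint_right.2 (disjoint_iff.2 hca)
      rwa [compl_compl] at this
    obtain ⟨τ, hτ, h1⟩ := a3_exists_tau hsup hc hca' (n + 1)
    obtain ⟨r, hr, h2⟩ := a3_exists_eq hf h1 n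
    obtain ⟨j, h3⟩ := exists_inf_ne_bot h2
      (show c ⊓ a τ ⊓ a3Eq (a3f a F h n) r ≤ ⨆ j, h (Encodable.encode τ) j by
        rw [hh.tot]; exact le_top)
    intro h5
    apply h3
    refine le_bot_iff.1 ?_
    rw [← h5]
    refine le_inf ?_ ?_
    · exact inf_le_left.trans (inf_le_left.trans inf_le_left)
    · have hr' : (r.set i k).length = n := by simp [hr]
      refine le_trans ?_ (a3_term_le a F h (a3f a F h n) i k hτ hr' j)
      have hi' : i < (r.set i k).length := by omega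
      have h6 : F (r.set i k) j i k = ⊤ := by
        rw [hext (r.set i k) j i hi']
        simp [natN]
      rw [h6, inf_top_eq]
      refine inf_le_inf_right _ ?_
      refine le_inf (inf_le_left.trans inf_le_right) ?_
      refine le_iInf fun i' => le_iInf fun hi'' => ?_
      by_cases hii : i = i'
      · subst hii
        rw [List.getElem_set_self]
        exact inf_le_left.trans (inf_le_left.trans hcf)
      · rw [List.getElem_set_ne hii]
        have hi3 : i' < r.length := by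
          rw [List.length_set] at hi''
          exact hi''
        exact inf_le_right.trans ((a3_eq_le _ r i' hi3).trans inf_le_left)
  · intro h5
    apply hca
    refine le_bot_iff.1 ?_
    rw [← h5]
    exact inf_le_inf_left _ le_sup_left

theorem a3_f_anti (a : List ℕ → B) (F : List ℕ → ℕ → ℕ → ℕ → B) (h : ℕ → ℕ → B) {m n : ℕ}
    (hmn : m ≤ n) (i k : ℕ) : a3f a F h n i k ≤ a3f a F h m i k := by
  induction n, hmn using Nat.le_induction with
  | base => exact le_rfl
  | succ n _ ih => exact le_trans inf_le_left ih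

theorem a3_Phi_le (hT : IsSub T) {a : List ℕ → B}
    (ha : ∀ τ, a τ ∈ T) (hsup : ∀ τ, ⨆ m, a (m :: τ) = a τ) {F : List ℕ → ℕ → ℕ → ℕ → B}
    (hF : ∀ r j, IsFn T (F r j)) (hext : ∀ r j, ExtF r (F r j)) {h : ℕ → ℕ → B}
    (hh : IsFn T h) (n i k : ℕ) : a3Phi a F h i k ≤ a3f a F h n i k := by
  rcases Nat.lt_or_ge i n with hin | hin
  · have : ∀ m, i + 1 ≤ m → a3f a F h m i k = a3f a F h (i + 1) i k := by
      intro m hm
      induction m, hm using Nat.le_induction with
      | base => rfl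
      | succ m hm ih => rw [a3_stab hT ha hsup hF hext hh (by omega) k, ih]
    exact (this n hin).symm.le
  · exact a3_f_anti a F h (by omega) i k

theorem a3_f_mono_h (a : List ℕ → B) (F : List ℕ → ℕ → ℕ → ℕ → B) (h h' : ℕ → ℕ → B)
    (n : ℕ) : ∀ i k, leF h h' ⊓ a3f a F h' n i k ≤ a3f a F h n i k := by
  induction n with
  | zero => exact fun i k => le_top
  | succ n ih =>
    intro i k
    have hval : ∀ r, leF h h' ⊓ a3Le (a3f a F h' n) r ≤ a3Le (a3f a F h n) r := by
      intro r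
      refine le_iInf fun i => le_iInf fun hi => ?_
      exact (inf_le_inf_left _ (a3_le_le _ r i hi)).trans (ih i _)
    have hh : ∀ n k, leF h h' ⊓ h' n k ≤ h n k := by
      intro n k
      have : leF h h' ≤ h' n k ⇨ h n k := (iInf_le _ n).trans (iInf_le _ k)
      exact (inf_le_inf_right _ this).trans himp_inf_le
    refine le_inf ?_ ?_
    · exact (inf_le_inf_left _ inf_le_left).trans (ih i k)
    · refine (inf_le_inf_left _ inf_le_right).trans ?_
      refine a3_inf_G_le (inf_le_right.trans le_sup_left) ?_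
      intro τ r hτ hr j
      refine le_trans ?_ (a3_term_le a F h _ i k hτ hr j)
      refine le_inf (le_inf (le_inf ?_ ?_) ?_) ?_
      · exact inf_le_right.trans (inf_le_left.trans (inf_le_left.trans inf_le_left))
      · refine le_trans ?_ (hval r)
        exact inf_le_inf_left _ (inf_le_left.trans (inf_le_left.trans inf_le_right))
      · refine le_trans ?_ (hh _ j)
        exact inf_le_inf_left _ (inf_le_left.trans inf_le_right)
      · exact inf_le_right.trans inf_le_right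

theorem exists_limit_map (hS : IsSub S) (hT : IsSub T) (hST : S ⊆ T) (a : List ℕ → B)
    (ha : ∀ τ, a τ ∈ T) (hdisj : ∀ τ m n, m ≠ n → a (m :: τ) ⊓ a (n :: τ) = ⊥)
    (hsup : ∀ τ, ⨆ m, a (m :: τ) = a τ) (F : List ℕ → ℕ → ℕ → ℕ → B)
    (hF : ∀ r j, IsFn T (F r j)) (hext : ∀ r j, ExtF r (F r j))
    (hmono : ∀ r r' j j', r.length = r'.length →
        (∀ (i : ℕ) (h : i < r.length) (h' : i < r'.length), r[i] ≤ r'[i]) → j ≤ j' →
        ∀ n k, F r' j' n k ≤ F r j n k) :
    ∃ Φ : (ℕ → ℕ → B) → ℕ → ℕ → B, (∀ h, IsFn S h → IsFn T (Φ h)) ∧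
      (∀ h h', IsFn S h → IsFn S h' → a [] ⊓ leF h h' ≤ leF (Φ h) (Φ h')) ∧
      ∀ h, IsFn S h → ∀ τ m N, h (Encodable.encode (m :: τ)) = natN N →
        a (m :: τ) ≤ ⨆ r : List ℕ, ⨆ _ : r.length = τ.length, leF (F r N) (Φ h) := by
  have hmem : ∀ h, IsFn S h → IsFn T h := fun h hh =>
    ⟨fun n k => hST (hh.mem n k), hh.mono, hh.tot⟩
  refine ⟨a3Phi a F, ?_, ?_, ?_⟩
  · intro h hh
    refine ⟨fun i k => (a3_f_fn hT ha hsup hF (hmem h hh) (i + 1)).mem i k,
      fun i k => (a3_f_fn hT ha hsup hF (hmem h hh) (i + 1)).mono i k,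
      fun i => (a3_f_fn hT ha hsup hF (hmem h hh) (i + 1)).tot i⟩
  · intro h h' _ _
    refine inf_le_right.trans ?_
    refine le_iInf fun i => le_iInf fun k => ?_
    rw [le_himp_iff]
    exact a3_f_mono_h a F h h' (i + 1) i k
  · intro h hh τ m N hN
    have hf := a3_f_fn hT ha hsup hF (hmem h hh) τ.length
    refine le_of_forall_meets fun c hc hca => ?_
    obtain ⟨r, hr, h1⟩ := a3_exists_eq hf hc τ.length
    intro h2
    apply h1
    refine le_bot_iff.1 ?_
    rw [← h2]
    refine le_inf inf_le_left ?_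
    refine le_trans ?_ (le_iSup _ r)
    refine le_trans ?_ (le_iSup _ hr)
    refine le_iInf fun i => le_iInf fun k => ?_
    rw [le_himp_iff]
    refine (inf_le_inf_left _
      ((a3_Phi_le hT ha hsup hF hext (hmem h hh) (τ.length + 1) i k).trans inf_le_right)).trans ?_
    refine a3_inf_G_le ?_ ?_
    · have : c ⊓ a3Eq (a3f a F h τ.length) r ≤ a [] :=
        inf_le_left.trans (hca.trans (a3_a_le hsup _))
      exact (inf_le_inf_right _ this).trans (by rw [inf_compl_eq_bot]; exact bot_le)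
    · intro τ' r' hτ' hr' j
      by_cases hττ : τ' = m :: τ
      · subst hττ
        by_cases hNj : N ≤ j
        · by_cases hrr : ∀ (i : ℕ) (h : i < r.length) (h' : i < r'.length), r[i] ≤ r'[i]
          · exact inf_le_right.trans (inf_le_right.trans
              (hmono r r' N j (hr.trans hr'.symm) hrr hNj i k))
          · push Not at hrr
            obtain ⟨i', hi, hi', hlt⟩ := hrr
            have h3 := a3_eq_inf_le (f := a3f a F h τ.length) hi hi' hlt
            refine le_trans ?_ (h3.le.trans bot_le)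
            exact inf_le_inf inf_le_right (inf_le_left.trans (inf_le_left.trans inf_le_right))
        · have h3 : h (Encodable.encode (m :: τ)) j = ⊥ := by
            rw [hN]
            simp [natN, hNj]
          rw [h3]
          simp
      · have h3 := a3_a_disj hdisj hsup τ' (m :: τ) (by simp [hτ']) hττ
        refine le_trans ?_ (h3.le.trans bot_le)
        refine le_inf ?_ ?_
        · exact inf_le_right.trans (inf_le_left.trans (inf_le_left.trans inf_le_left))
        · exact inf_le_left.trans (inf_le_left.trans hca)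

end A3

end Pool.Agent.Helper33.HM
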